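import Pool.Agent.X159.TZ.Loc

set_option autoImplicit false

/-! # Poles of local topological zeta functions and Bernstein-Sato roots: reduction to cubics

We prove that the strong monodromy conjecture for the LOCAL topological zeta functions of all
polynomials `f` at all their zeros `x`, of all degrees and in all numbers of variables, is EQUIVALENT
to the same statement for the cubic polynomials `x_0 + ∑_j t_j q_j(x)`, `q_j` of degree at most two, at
their zeros. The same is proved for the two refined forms: every pole of `(s + 1) Z_{f,x}(s)` is a root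
of `b_{f,x}(s) / (s + 1)`; and `b_{f,x} Z_{f,x}` is a polynomial (orders of poles). All polynomials may
have coefficients in a given subfield `k` of `ℂ`.

Method. Every polynomial `f` becomes such a cubic by adding products `y_i z_i` of new variables and an
automorphism of the polynomial ring. The local topological zeta function of
`F = f + y_1 z_1 + ⋯ + y_κ z_κ` at `(x, 0)` is
`Z_F(s) = (κ + s (s + κ + 1) Z_f(s + κ)) / ((s + 1) (s + κ))` (`stpK 1 κ Z`), proved from the classes of
the sets of jets in the Grothendieck ring, without resolution of singularities; and a local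
functional equation of `f` with `b(s) = (s + 1) c(s)` gives one of `F` with `(s + 1) c(s + κ)`.

As in the starting files the local topological zeta function is defined, as by Denef and Loeser,
from the local motivic zeta function `Z_mot(T) = ∑_d [X_d] 𝕃 ^ (-n d) T ^ d`, `X_d` the `d`-jets with
origin `x` on which `f` has the order `d` (`zetaM f {pt ℂ x} {c | c ≠ 0}`):
`Z_top(s) = χ(Z_mot(𝕃 ^ (-s)))` for `s = 1, 2, 3, …` (`IsTopZeta E ε`), `E` a homomorphism from the
Grothendieck ring localised at `𝕃` to a domain with `E(𝕃) ≠ 1`, such as the Hodge-Deligne polynomial,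
and `ε ∘ E` the Euler characteristic. The germ of `f` at `x` is the one of `trans x f = f(· + x)` at the
origin. -/

namespace Pool.Agent.Results.MP_6163c8_ag.CubicsLocal

open MvPolynomial Pool.Agent.W428.MOT Pool.Agent.TH192.MU Pool.Agent.X159.TZ
open Pool.Agent.TH192.MT (zetaM)
open Pool.Agent.Y229.MS (itr)
open Pool.Agent.X271.RD (cubic pt)

/-- **Reduction of the strong local conjecture to cubics.** For `P` one of `PRoots` (every pole of `Z` is
a root of `b`), `PRef` (every pole of `(s + 1) Z(s)` is a root of `b(s) / (s + 1)`), `POrders` (`b Z` is a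
polynomial), let `TopL E ε P f x` say that `P Z b` holds for the local topological zeta function `Z` of
`f` at `x` and every `b` which satisfies a functional equation `b(s) f ^ s = P(s) f ^ (s + 1)` at `x`, `P(s)` a
differential operator with formal power series coefficients, in particular the local
Bernstein-Sato polynomial.

(1) `TopL E ε P f x` holds for all `f ≠ 0` over the subfield `k` of `ℂ` and all complex zeros `x` of `f` if and
only if it holds for all cubics `x_0 + ∑_j t_j q_j(x)` over `k` with `q_j` of degree at most two, at all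
their complex zeros.

(2) If `f(x) = 0`, `f ≠ 0`, `κ ≥ 2`, and `Φ` is an isomorphism of polynomial rings, `F` the image of
`f + ∑_{i < κ} y_i z_i` (`itr f κ`) under `Φ` and `x'` the image of the point `(x, 0)`, and `TopL E ε P F x'`
holds, then `TopL E ε P f x` holds.

(3) If `Z` is the local topological zeta function of `f` at the zero `x`, then the one of
`f + ∑_{i < κ} y_i z_i` at `(x, 0)` is `(κ + s (s + κ + 1) Z(s + κ)) / ((s + 1) (s + κ))`. -/
theorem result (R : Type) [CommRing R] [IsDomain R] (E : MK ℂ →+* R) (ε : R →+* ℂ)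
    (hε : ε (E ((Lu ℂ : (MK ℂ)ˣ) : MK ℂ)) = 1) (hE : E ((Lu ℂ : (MK ℂ)ˣ) : MK ℂ) ≠ 1) :
    (∀ P : RatFunc ℂ → Polynomial ℂ → Prop, P = PRoots ∨ P = PRef ∨ P = POrders →
      (∀ (k : Type) [Field k] [Algebra k ℂ],
        (∀ (n : ℕ) (f : MvPolynomial (Fin n) k), f ≠ 0 → ∀ x : Fin n → ℂ,
          eval x (map (algebraMap k ℂ) f) = 0 → TopL E ε P (map (algebraMap k ℂ) f) x) ↔
        ∀ (n l : ℕ) (q : Fin l → MvPolynomial (Fin (n + 1)) k), (∀ j, (q j).totalDegree ≤ 2) →
          ∀ x : Fin (n + 1 + l) → ℂ, eval x (map (algebraMap k ℂ) (cubic q)) = 0 →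
            TopL E ε P (map (algebraMap k ℂ) (cubic q)) x) ∧
      ∀ (n : ℕ) (f : MvPolynomial (Fin n) ℂ), f ≠ 0 → ∀ x : Fin n → ℂ, eval x f = 0 →
        ∀ κ m : ℕ, 2 ≤ κ → n + 2 * κ = m →
          ∀ Φ : MvPolynomial (Fin (n + 2 * κ)) ℂ ≃ₐ[ℂ] MvPolynomial (Fin m) ℂ,
            TopL E ε P (Φ (itr f κ)) (imP Φ (exI x κ)) → TopL E ε P f x) ∧
    ∀ (n : ℕ) (f : MvPolynomial (Fin n) ℂ) (x : Fin n → ℂ), eval x f = 0 → ∀ Z : RatFunc ℂ,
      IsTopZeta E ε (zetaM f {pt ℂ x} {c | c ≠ 0}) Z → ∀ κ : ℕ,
        IsTopZeta E ε (zetaM (itr f κ) {pt ℂ (exI x κ)} {c | c ≠ 0}) (stpK 1 κ Z) := by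
  refine ⟨fun P hP => ?_, fun n f x hx Z hZ κ => ?_⟩
  · have hd : ∀ κ, 2 ≤ κ → Desc κ P := by
      intro κ hκ
      rcases hP with rfl | rfl | rfl
      · exact desc_roots hκ
      · exact desc_ref (by omega)
      · exact desc_orders (by omega)
    exact ⟨fun k _ _ => cubicsL hε hE hd k, fun n f hf x hx κ m hκ hm Φ h =>
      transferL hε hE (hd κ hκ) hf hx hm Φ h⟩
  · rw [zetaM_eq] at hZ ⊢
    exact top_itrL hε hE hx hZ κ

end Pool.Agent.Results.MP_6163c8_ag.CubicsLocal
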