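import Pool.Agent.X271.TlFin

/-!
# Closure properties of the strong monodromy conjecture for germs

Let `𝓘` be a class of germs at the origin of ideals, and `𝓗` a class of germs of hypersurfaces, for
which the strong monodromy conjecture holds (the poles of the local topological zeta function `Z_F`
at the origin are roots of the local Bernstein-Sato polynomial `b_F`), for the hypersurfaces in `𝓗` in
the reduced form: for the poles of `(s + 1) Z_F` and the roots of `b_F(s) / (s + 1)`. We prove that then
this is also true for the least classes `𝓘' ⊇ 𝓘` and `𝓗' ⊇ 𝓗`, `𝓗' ⊆ 𝓘'` (as principal ideals), with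
the following properties.

* `𝓘'` is closed under sums and products in disjoint sets of variables, and contains with a principal
  ideal `(f)` all its powers `(f ^ a)`.
* For `(f_j)` in `𝓘'` and `g` in `𝓗'`, `g(0) = 0`, the polynomials `∑ y_j f_j(x)` and
  `∑ y_j f_j(x) + g(z)`, with new variables `y_j`, are in `𝓗'`.
* New: if `∑ y_j f_j(x)` is in `𝓗'` then `(f_j)` is in `𝓘'`.
* New: if `f ≠ 0`, `f(0) = 0`, and `f(x) + y_1 z_1 + ⋯ + y_k z_k`, `k ≥ 0`, becomes a member of `𝓗'` in
  suitable formal coordinates at the origin and up to a unit factor, then `f` is in `𝓗'`.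

The last property contains: `𝓗'` is closed under formal coordinate changes and multiplication by
units; and if `Φ(x, z) + ∑ y_i l_i(x, z)` is in `𝓗'`, where `l_1 = ⋯ = l_k = 0` is a smooth germ with
the coordinates `x`, then so is the restriction of `Φ` to this germ, for example the composition
`Φ(x, p_1(x), …, p_k(x))`, if `l_i = z_i - p_i(x)`. With the third one: `𝓘'` is closed under
(polynomial) changes of the generators, formal coordinate changes and restrictions to such germs.

The unconditional results are obtained for the classes `𝓘` and `𝓗` for which the conjecture is known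
in the starting library: `𝓘`: all ideals of `ℂ[x, y]`, ideals of `ℂ[x₀, x₁, x₂]` generated by forms of
the same degree, three of which are algebraically independent, ideals generated by forms of the same
degree without a common zero outside the origin; `𝓗`: plane curves and polynomials with very general
coefficients at the vertices of the Newton polyhedron (with at most a simple pole at `-1`).

Method. For `F = ∑ y_j f_j(x) + g(z)`: the starting file `ThomSebastianiLocal`. The new operations: let
`B(x, s)` be a polynomial with `(s + 1) B(x, s) f ^ s ∈ D[s] f ^ (s + 1)` and `B(0, β) ≠ 0`. As the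
polynomials `B` with this property are an ideal of `ℂ[x][s]` which contains `b_f(s) / (s + 1)`, it
contains a polynomial `H(x) c(s)` with `H(0) ≠ 0`, `c(β) ≠ 0`. Hence `(s + 1) c(s)` satisfies a functional
equation of `f` over `ℂ[[x]]`, so that `(s + 1) c(s + k)` satisfies one of `f + ∑ y_i z_i` and of the germ
`G` which it becomes; and by faithful flatness `(s + 1) H'(x) c(s + k) G ^ s ∈ D[s] G ^ (s + 1)` with a
polynomial `H'`, `H'(0) ≠ 0`. So `β` is forced for `f` if `β - k` is forced for `G`.
-/

set_option autoImplicit false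

namespace Pool.Agent.Results.MP_6163c8_ag.ThomSebastianiCompositionsLocal

open MvPolynomial Pool.Agent.W574.SM Pool.Agent.W574.RO Pool.Agent.H628R4.TP Pool.Agent.TH192.DT
  Pool.Agent.Y229 Pool.Agent.Y230.TL
open Pool.Agent.W425.SM (SmoothFan Principal)
open Pool.Agent.W422.GC (topZetaGLocal)
open Pool.Agent.X271.TwD (unstab BecomesL IsFormalBFunction exps InPolyT tup)
open Pool.Agent.X271.TlD (LC MonL)

/-- **Closure properties of the strong monodromy conjecture for germs.** `LC At HAt c A Z`: the
classes of germs at the origin of ideals (`c = false`) and of hypersurfaces (`c = true`) `A`, with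
their local topological zeta functions `Z`, which are obtained from the ideals in `At` and the
hypersurfaces in `HAt` by the operations in the introduction. `MonL c A Z`: the strong monodromy
conjecture at the origin for `A` and `Z`, for hypersurfaces (`c = true`) including its reduced form.

(1) If `MonL false` holds for all members of `At` and `MonL true` for all members of `HAt`, then
`MonL c A Z` for all `A`, `Z` with `LC At HAt c A Z`.

(2) Let the polynomial `F` be in the classes obtained from the ideals `StrongLocal` (in finitely many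
variables) and the hypersurfaces `StrongHyp`, with the function `Z`, and let `b` satisfy a functional
equation `b(s) F ^ s = P(s) F ^ (s + 1)`, where `P(s)` is a differential operator with formal
power series coefficients. Then `b(s₀) = 0` for every pole `s₀` of `Z`.

(3) Let `f ∈ ℂ[[x_1, …, x_N]]`, `f ≠ 0`, `f(0) = 0`, be such that `f(x) + y_1 z_1 + ⋯ + y_k z_k` becomes
a polynomial `G` in suitable formal coordinates at the origin, up to a unit (`BecomesL`), where `G` is
in the class of the hypersurfaces in (2), with the function `Z`. Let `b(s) f ^ s = P(s) f ^ (s + 1)` with a differential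
operator `P(s)` with formal power series coefficients. Then `b(s₀) = 0` for every pole `s₀ ≠ k` of the
local topological zeta function `Z_f` of `f`, where
`1 - Z_f(s) = (1 - Z(s - k)) s (s - k + 1) / ((s - k) (s + 1))` (`unstab`; all poles of `Z_f` are negative).

(4) Let the `f_{t,j}` be polynomials in finitely many variables `x_i`, let
`F_t = ∑_j y_{t,j} f_{t,j}(x)` and `F = ∏ t, F_t ^ a t` (`powProd`), `a t ≥ 1`, and let the ideal
`∏ t, (f_{t,j})_j ^ a t`, which is generated by the family `powFam a f`, be in the class of the ideals,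
with the local topological zeta function `Z'`. The local topological zeta function of `F` at the
origin is `Z' ∏ t, 1 / (1 + a t s)`. Let `b` satisfy a functional equation of `F` as in (2). Then
`b(s₀) = 0` for every pole `s₀` of `Z' ∏ t, 1 / (1 + a t s)`.

(5) Functions on generic smooth complete intersections are in the class. Let
`T_i = ∑_{π j = i} a_j x ^ (m_j) + H_i` for `i = 0, …, k` be polynomials in `N + k` variables
`x, z`, `a ∈ ℂ ^ r` algebraically independent over the field `F`; the `m_j` are not zero, the `H_i` have
coefficients in `F`, and their exponents are in the Newton polyhedron of the `m_j` with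
`π j ∈ {0, i}` (`InPolyT π m i`). Put `Φ = T_0`, `l_i = T_i`, `i = 1, …, k`. If the matrix
of the `∂ l_i / ∂ z_j` is invertible at the origin, and if the polynomial `f(x) ≠ 0` is the restriction
of `Φ` to `l = 0`, that is `Φ = f + ∑ q_i l_i` with formal power series `q_i`, and if `q_i(0) = 0`, then
`f` is in the class of the hypersurfaces, with the zeta function `Z_f` given by that of
`G = Φ + ∑ y_i l_i` (exponents `exps π m`) on a toric resolution, by the formula in (3), if `Z_G` has at
most a simple pole at `-1` (and `Z_f` no pole at `k`, which is always true). -/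
theorem result :
    (∀ (At HAt : Fam → RatFunc ℂ → Prop), (∀ A Z, At A Z → MonL false A Z) →
      (∀ A Z, HAt A Z → MonL true A Z) →
      ∀ (c : Bool) (A : Fam) (Z : RatFunc ℂ), LC At HAt c A Z → MonL c A Z) ∧
    (∀ (σ : Type) (F : MvPolynomial σ ℂ) (c : Bool) (Z : RatFunc ℂ),
      LC (fun A Z => Finite A.σ ∧ StrongLocal A Z) StrongHyp c ⟨σ, Fin 1, fun _ => F⟩ Z →
      ∀ b : Polynomial ℂ, IsLocalBFunction F b →
      ∀ s₀ : ℂ, Z.denom.eval s₀ = 0 → b.eval s₀ = 0) ∧
    (∀ (N k : ℕ) (f : MvPowerSeries (Fin N) ℂ), f ≠ 0 → MvPowerSeries.constantCoeff f = 0 →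
      ∀ G : MvPolynomial (Fin (N + (k + k))) ℂ, BecomesL f k G → ∀ Z : RatFunc ℂ,
      LC (fun A Z => Finite A.σ ∧ StrongLocal A Z) StrongHyp true ⟨Fin (N + (k + k)), Fin 1, fun _ => G⟩ Z →
      ∀ b : Polynomial ℂ, IsFormalBFunction f b →
      ∀ s₀ : ℂ, s₀ ≠ k → (unstab k 1 Z).denom.eval s₀ = 0 → b.eval s₀ = 0) ∧
    (∀ (σ T : Type) [Finite σ] [Fintype T] [DecidableEq T] [Nonempty T] (κ : T → Type)
      [∀ t, Fintype (κ t)] (a : T → ℕ), (∀ t, 1 ≤ a t) →
      ∀ (f : (t : T) → κ t → MvPolynomial σ ℂ) (Z' : RatFunc ℂ),
      LC (fun A Z => Finite A.σ ∧ StrongLocal A Z) StrongHyp false (powFam a f) Z' →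
      ∀ b : Polynomial ℂ, IsLocalBFunction (powProd a f) b →
      ∀ s₀ : ℂ, (Z' * ∏ t, fac (a t) 1).denom.eval s₀ = 0 → b.eval s₀ = 0) ∧
    (∀ {N k r : ℕ}, 1 ≤ r → ∀ (F : Subfield ℂ) (π : Fin r → Fin (k + 1))
      (m : Fin r → Fin (N + k) → ℕ), (∀ j j', π j = π j' → m j = m j' → j = j') →
      (∀ j, m j ≠ 0) → ∀ H : Fin (k + 1) → MvPolynomial (Fin (N + k)) F,
      (∀ i, ∀ w ∈ (H i).support, InPolyT π m i w) → ∀ a : Fin r → ℂ, AlgebraicIndependent F a →
      ∀ T : Fin (k + 1) → MvPolynomial (Fin (N + k)) ℂ,
        T = tup π m a (fun i => MvPolynomial.map (algebraMap F ℂ) (H i)) →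
      (Matrix.of fun i j : Fin k => MvPolynomial.coeff (Finsupp.single (Fin.natAdd N j) 1)
        (T i.succ)).det ≠ 0 →
      ∀ (f : MvPolynomial (Fin N) ℂ) (q : Fin k → MvPowerSeries (Fin (N + k)) ℂ), f ≠ 0 →
        (∀ i, MvPowerSeries.constantCoeff (q i) = 0) →
        (T 0 : MvPowerSeries (Fin (N + k)) ℂ) =
          MvPowerSeries.rename (Fin.castAdd k) (f : MvPowerSeries (Fin N) ℂ) +
            ∑ i, q i * (T i.succ : MvPowerSeries (Fin (N + k)) ℂ) →
      ∀ R : SmoothFan (N + (k + k)), Principal (exps π m) R →
      ((RatFunc.X + 1) * topZetaGLocal (exps π m) R).denom.eval (-1) ≠ 0 →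
      (unstab k 1 (topZetaGLocal (exps π m) R)).denom.eval (k : ℂ) ≠ 0 →
      LC (fun A Z => Finite A.σ ∧ StrongLocal A Z) StrongHyp true ⟨Fin N, Fin 1, fun _ => f⟩
        (unstab k 1 (topZetaGLocal (exps π m) R))) := by
  classical
  refine ⟨Pool.Agent.X271.TlT.closure, ?_, ?_, ?_, ?_⟩
  · intro σ F c Z h b hb s₀ hs
    exact Pool.Agent.X271.TlT.root_of_monL (Pool.Agent.X271.TlT.strong_mem _ _ _ h) b hb s₀ hs
  · intro N k f hf hf0 G hG Z h b hb s₀ hk hs
    exact Pool.Agent.X271.TlT.germ_root hf hf0 hG (Pool.Agent.X271.TlT.strong_mem _ _ _ h) b hb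
      s₀ hk hs
  · intro σ T _ _ _ _ κ _ a ha f Z' h b hb s₀ hs
    exact Pool.Agent.X271.TlT.root_pow a ha f Z' (Pool.Agent.X271.TlT.strong_mem _ _ _ h) b hb
      s₀ hs
  · intro N k r hr F π m hinj hm H hH a ha T hT hdet f q hf hq hF R hR h1 hk
    exact Pool.Agent.X271.TlT.comp_mem hr F π m hinj hm H hH a ha T hT hdet f hf q hq hF R hR h1
      hk

end Pool.Agent.Results.MP_6163c8_ag.ThomSebastianiCompositionsLocal
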